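import Pool.Agent.Run7.h524.MG.Mu3

/-!
# The Liouville function along ALL short polynomial sequences with almost every starting point

Project MK of this run (primes in intervals of length `N ^ (1/3) log ^ C N` with additive characters): its mean square
estimate `S_T31`, in the form for bounded functions `Run7.h18.MK.t_T31G`. New: the same for the Möbius and the Liouville
function along all polynomial sequences.
-/

set_option autoImplicit false

open Polynomial Finset

namespace Pool.Agent.Results.MP_648c71_nt.AllShortPolynomials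

/-- The Liouville function at a positive integer: `(-1) ^ Ω(n)`; it is `0` at the other integers. -/
noncomputable def lam (v : ℤ) : ℝ := if 1 ≤ v then (-1) ^ (ArithmeticFunction.cardFactors v.toNat) else 0

/-- For all `d ≥ 1`, `T`, `U` there is `C` such that for all large `N` there is a set `Ex` of at most `N / log ^ U N`
integers with the following property. For ALL integers `n ∈ [1, N]` outside `Ex`, ALL integer polynomials `f` of degree
between `1` and `d` with coefficients of absolute value at most `log ^ T N` and ALL `x` with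
`N ^ (1/3) log ^ C N ≤ x ^ (deg f) ≤ N / log ^ C N`: the numbers `n + f(1), ..., n + f(x)` are positive, and the sum of
`λ(n + f(m))` over `m ≤ x` is at most `x / log ^ U N` in absolute value. -/
theorem result (d T U : ℕ) (hd : 1 ≤ d) : ∃ C N₀ : ℕ, ∀ N : ℕ, N₀ ≤ N →
    ∃ Ex : Finset ℕ, (Ex.card : ℝ) ≤ N / Real.log N ^ U ∧
    ∀ n ∈ Icc 1 N, n ∉ Ex → ∀ f : ℤ[X], 1 ≤ f.natDegree → f.natDegree ≤ d →
      (∀ i, |((f.coeff i : ℤ) : ℝ)| ≤ Real.log N ^ T) → ∀ x : ℕ,
      (N : ℝ) ^ (1 / 3 : ℝ) * Real.log N ^ C ≤ (x : ℝ) ^ f.natDegree → (x : ℝ) ^ f.natDegree * Real.log N ^ C ≤ N →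
      (∀ m ∈ Icc 1 x, 1 ≤ (n : ℤ) + f.eval (m : ℤ)) ∧
      |∑ m ∈ Icc 1 x, lam ((n : ℤ) + f.eval (m : ℤ))| ≤ x / Real.log N ^ U := by
  obtain ⟨C, N₀, h⟩ := Pool.Agent.Run7.h524.MG.poly_lio d T U hd
  refine ⟨C, N₀, fun N hN => ?_⟩
  obtain ⟨Ex, h1, h2⟩ := h N hN
  refine ⟨Ex, h1, fun n hn hnE f hf1 hf2 hcf x hx1 hx2 => ?_⟩
  obtain ⟨h3, h4⟩ := h2 n hn hnE f hf1 hf2 hcf x hx1 hx2
  refine ⟨h3, ?_⟩
  refine le_trans (le_of_eq ?_) h4
  congr 1
  refine sum_congr rfl fun m hm => ?_
  unfold lam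
  rw [if_pos (h3 m hm)]

end Pool.Agent.Results.MP_648c71_nt.AllShortPolynomials
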