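import Pool.Agent.Run7.h504.Ch1

/-!
# The Liouville function at the values of arbitrary polynomials times linear factors, the constant terms of which are
taken from arbitrary families of nearly minimal additive energy

Used from the starting files: the bilinear estimate for one shift (`Pool.Agent.H373R2.T7`), Davenport's theorem for the
Liouville function (`Pool.Agent.H373R2.T7.sup_liou`), the energy of polynomial values (`Pool.Agent.H373R2.T7.energy_poly`),
the passage from one constant term to tuples and to two-sided sums (`Pool.Agent.R501.CP`). Used from helper223: the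
bilinear estimate for all lengths and multipliers (`Run7.h223.LE.one_shift`).
-/

set_option autoImplicit false

namespace Pool.Agent.Results.MP_648c71_nt.FamiliesOfConstants

open Finset

/-- The Liouville function on the integers, `λ(-m) = λ(m)` and `λ(0) = 0`. -/
def lam (m : ℤ) : ℤ := if m = 0 then 0 else (-1) ^ ArithmeticFunction.cardFactors m.natAbs

/-- The sum of `λ(F(t))` over the integers `t` with `u ≤ t ≤ v` and `t ≡ r mod q`, where `F` is the product of the
polynomial `f` and of the polynomials `α i T + a i`, `i ∈ I`. -/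
noncomputable def lamSum {s : ℕ} (f : Polynomial ℤ) (α : Fin s → ℕ) (a : Fin s → ℤ) (I : Finset (Fin s)) (q : ℕ)
    (r u v : ℤ) : ℤ :=
  ∑ t ∈ (Icc u v).filter (fun t => t ≡ r [ZMOD q]),
    lam ((f * ∏ i ∈ I, (Polynomial.C (α i : ℤ) * Polynomial.X + Polynomial.C (a i))).eval t)

/-- All the sums are small: for all `l`, all nonempty sets `I` of indices, all residue classes `r` modulo
`q ≤ log ^ κ N` and all integers `u`, `v` with `α i |u| ≤ B N` and `α i |v| ≤ B N` for all `i ∈ I`, the sum of `λ(F(t))`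
over the `t` with `u ≤ t ≤ v` and `t ≡ r mod q` is at most `N / log ^ U N` in absolute value, where
`F = f l * ∏ i ∈ I, (α i T + a i)`. -/
def Small (B κ U N : ℕ) {s L : ℕ} (f : Fin L → Polynomial ℤ) (α : Fin s → ℕ) (a : Fin s → ℤ) : Prop :=
  ∀ l, ∀ I : Finset (Fin s), I.Nonempty → ∀ q : ℕ, 1 ≤ q → (q : ℝ) ≤ Real.log N ^ κ → ∀ r u v : ℤ,
    (∀ i ∈ I, (α i : ℤ) * |u| ≤ B * N ∧ (α i : ℤ) * |v| ≤ B * N) →
    |((lamSum (f l) α a I q r u v : ℤ) : ℝ)| ≤ N / Real.log N ^ U

/-- The additive energy of order `p` of the family `a 1, ..., a x`: the number of the solutions of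
`a (u 1) + ... + a (u p) = a (v 1) + ... + a (v p)`. -/
def energy (p x : ℕ) (a : ℕ → ℤ) : ℕ :=
  (((Fintype.piFinset fun _ : Fin p => Icc 1 x) ×ˢ (Fintype.piFinset fun _ : Fin p => Icc 1 x)).filter
    (fun q => ∑ i, a (q.1 i) = ∑ i, a (q.2 i))).card

/-- The number of the representations `n = a (u 1) + ... + a (u p)`, `1 ≤ u i ≤ x`. -/
def reps (p x : ℕ) (a : ℕ → ℤ) (n : ℤ) : ℕ :=
  ((Fintype.piFinset fun _ : Fin p => Icc 1 x).filter fun u => ∑ i, a (u i) = n).card

/-- The integers `a 1, ..., a x` are at most `B N` in absolute value, and their additive energy of some order `p ≤ h`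
is at most `log ^ C N` times `x ^ (2 p) / N`. -/
def Spread (h B C N x : ℕ) (a : ℕ → ℤ) : Prop :=
  (∀ m ∈ Icc 1 x, |a m| ≤ B * N) ∧
    ∃ p : ℕ, 1 ≤ p ∧ p ≤ h ∧ (energy p x a : ℝ) * N ≤ Real.log N ^ C * (x : ℝ) ^ (2 * p)

open Classical in
/-- The number of the vectors `m` with `1 ≤ m i ≤ x i` for all `i` which have the property `E`. -/
noncomputable def num {s : ℕ} (x : Fin s → ℕ) (E : (Fin s → ℕ) → Prop) : ℝ :=
  (((Fintype.piFinset fun i => Icc 1 (x i)).filter E).card : ℝ)

lemma energy_eq (p x : ℕ) (a : ℕ → ℤ) : energy p x a = Pool.Agent.H373R2.T7.energy p x a := rfl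

/-- few representations give a small energy -/
lemma energy_le (p x : ℕ) (a : ℕ → ℤ) (R : ℝ) (hR : ∀ n, (reps p x a n : ℝ) ≤ R) :
    (energy p x a : ℝ) ≤ (x : ℝ) ^ p * R := by
  classical
  set P := Fintype.piFinset fun _ : Fin p => Icc 1 x with hP
  have hcard : (P.card : ℝ) = (x : ℝ) ^ p := by
    rw [hP, Fintype.card_piFinset_const, Nat.card_Icc, Nat.add_sub_cancel]
    push_cast
    rfl
  have h1 : energy p x a = ∑ u ∈ P, reps p x a (∑ i, a (u i)) := by
    unfold energy
    rw [card_filter, sum_product]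
    apply sum_congr rfl
    intro u _
    unfold reps
    rw [card_filter]
    apply sum_congr rfl
    intro v _
    by_cases h : ∑ i, a (u i) = ∑ i, a (v i)
    · rw [if_pos h, if_pos h.symm]
    · rw [if_neg h, if_neg (fun h' => h h'.symm)]
  rw [h1]
  push_cast
  calc ∑ u ∈ P, (reps p x a (∑ i, a (u i)) : ℝ) ≤ ∑ _u ∈ P, R := sum_le_sum fun u _ => hR _
    _ = (x : ℝ) ^ p * R := by rw [sum_const, nsmul_eq_mul, hcard]

/-- the energy of polynomial values -/
lemma spread_poly (f : Polynomial ℤ) (hd : 1 ≤ f.natDegree) (hl : 0 < f.leadingCoeff) (D : ℕ) :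
    ∃ h B N₀ : ℕ, ∀ N : ℕ, N₀ ≤ N → ∀ x : ℕ, N ≤ D * x ^ f.natDegree → x ^ f.natDegree ≤ D * N →
      Spread h B 1 N x (fun m => f.eval (m : ℤ)) := by
  obtain ⟨p, C, hC, hE⟩ := Pool.Agent.H373R2.T7.energy_poly f hd hl
  obtain ⟨A, hA⟩ : ∃ A : ℕ, A = ∑ i ∈ range (f.natDegree + 1), (f.coeff i).natAbs := ⟨_, rfl⟩
  obtain ⟨N₁, h1⟩ := Pool.Agent.H373R2.T7.ev_L' (D * C)
  refine ⟨p + 1, A * D, N₁ + 1, fun N hN x hx1 hx2 => ?_⟩
  have hx : 1 ≤ x := by
    by_contra hcon
    have hx0 : x = 0 := by omega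
    rw [hx0, zero_pow (by omega)] at hx1
    omega
  refine ⟨fun m hm => ?_, p + 1, by omega, le_rfl, ?_⟩
  · rw [mem_Icc] at hm
    have g1 : |f.eval (m : ℤ)| ≤ (A : ℤ) * (x : ℤ) ^ f.natDegree := by
      rw [Polynomial.eval_eq_sum_range]
      refine (abs_sum_le_sum_abs _ _).trans ?_
      rw [hA]
      push_cast
      rw [sum_mul]
      apply sum_le_sum
      intro i hi
      rw [mem_range] at hi
      rw [abs_mul, abs_pow, Int.abs_natCast]
      apply mul_le_mul_of_nonneg_left _ (abs_nonneg _)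
      have hmx : (m : ℤ) ≤ x := by exact_mod_cast hm.2
      have hx1' : (1 : ℤ) ≤ x := by exact_mod_cast hx
      calc (m : ℤ) ^ i ≤ (x : ℤ) ^ i := pow_le_pow_left₀ (by omega) hmx _
        _ ≤ (x : ℤ) ^ f.natDegree := pow_le_pow_right₀ hx1' (by omega)
    refine g1.trans ?_
    have g3 : A * x ^ f.natDegree ≤ A * D * N := by
      rw [mul_assoc]
      exact Nat.mul_le_mul_left _ hx2
    exact_mod_cast g3
  · have hL := h1 N (by omega)
    have hx0 : (0 : ℝ) < x := by exact_mod_cast hx
    have e1 : (Pool.Agent.H373R2.T7.energy p x (fun m => f.eval (m : ℤ)) : ℝ) * N ≤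
        Real.log N ^ 1 * (x : ℝ) ^ (2 * p) := by
      have hNr : (N : ℝ) ≤ D * (x : ℝ) ^ f.natDegree := by exact_mod_cast hx1
      have hE' := hE x hx
      calc (Pool.Agent.H373R2.T7.energy p x (fun m => f.eval (m : ℤ)) : ℝ) * N ≤
          Pool.Agent.H373R2.T7.energy p x (fun m => f.eval (m : ℤ)) * (D * (x : ℝ) ^ f.natDegree) :=
            mul_le_mul_of_nonneg_left hNr (Nat.cast_nonneg _)
        _ = D * (Pool.Agent.H373R2.T7.energy p x (fun m => f.eval (m : ℤ)) * (x : ℝ) ^ f.natDegree) := by ring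
        _ ≤ D * (C * (x : ℝ) ^ (2 * p)) := mul_le_mul_of_nonneg_left hE' (Nat.cast_nonneg _)
        _ = (D * C) * (x : ℝ) ^ (2 * p) := by ring
        _ ≤ Real.log N * (x : ℝ) ^ (2 * p) := mul_le_mul_of_nonneg_right hL (by positivity)
        _ = _ := by rw [pow_one]
    rw [energy_eq]
    exact Run7.h223.LE.spread_mono 1 p (p + 1) x N (by omega) (fun m => f.eval (m : ℤ)) e1

/-- Let `h`, `B`, `C`, `κ` and `U` be fixed and let `N` be large.

(1) Let `a i 1, ..., a i (x i)` (`i < s`, where `2 ^ s ≤ log ^ κ N`) be ARBITRARY families of integers up to `B N`, each of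
which has an additive energy of some order `p ≤ h` of at most `log ^ C N` times `x ^ (2 p) / N`, where `x` is the
length of the family. Let `α i ≥ 1` be arbitrary integers, and let `f l`, where `l` ranges over at most `log ^ κ N`
indices, be arbitrary polynomials with integer coefficients (of any degree). Then, for all the vectors `m` with
`1 ≤ m i ≤ x i` up to a proportion of `1 / log ^ U N` of them, the constant terms `a i (m i)` have the following
property: `|∑ λ(F(t))| ≤ N / log ^ U N` for all `l` and all nonempty sets `I` of indices, where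
`F = f l * ∏ i ∈ I, (α i T + a i (m i))`, the sum over the `t ≡ r mod q` in an arbitrary interval `[u, v]` with
`α i |u|, α i |v| ≤ B N` for all `i ∈ I`, for all residue classes `r` modulo all `q ≤ log ^ κ N`.
(2) The condition on the energy of a family holds if, for some `1 ≤ p ≤ h`, no integer has more than
`log ^ C N x ^ p / N` representations as a sum of `p` members of the family.
(3) It holds for the values at `1, ..., x` of a fixed nonconstant polynomial `g` of degree `d`, for some `h`, some `B` and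
`C = 1`, whenever `x ^ d` has the order of magnitude of `N`. -/
theorem result (h B C κ U : ℕ) :
    (∃ N₀ : ℕ, ∀ N : ℕ, N₀ ≤ N → ∀ s L : ℕ, (2 : ℝ) ^ s ≤ Real.log N ^ κ → (L : ℝ) ≤ Real.log N ^ κ →
      ∀ (x : Fin s → ℕ) (a : Fin s → ℕ → ℤ), (∀ i, Spread h B C N (x i) (a i)) →
      ∀ α : Fin s → ℕ, (∀ i, 1 ≤ α i) → ∀ f : Fin L → Polynomial ℤ,
        num x (fun m => ¬ Small B κ U N f α (fun i => a i (m i))) ≤ (∏ i, (x i : ℝ)) / Real.log N ^ U) ∧
    (∀ (N x p : ℕ) (a : ℕ → ℤ), 1 ≤ p → p ≤ h → (∀ m ∈ Icc 1 x, |a m| ≤ B * N) →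
      (∀ n, (reps p x a n : ℝ) * N ≤ Real.log N ^ C * (x : ℝ) ^ p) → Spread h B C N x a) ∧
    (∀ g : Polynomial ℤ, 1 ≤ g.natDegree → 0 < g.leadingCoeff → ∀ D : ℕ, ∃ h' B' N₀ : ℕ, ∀ N : ℕ, N₀ ≤ N → ∀ x : ℕ,
      N ≤ D * x ^ g.natDegree → x ^ g.natDegree ≤ D * N → Spread h' B' 1 N x (fun m => g.eval (m : ℤ))) := by
  classical
  refine ⟨?_, fun N x p a hp1 hp2 ha hr => ⟨ha, p, hp1, hp2, ?_⟩, fun g hd hl D => spread_poly g hd hl D⟩
  · obtain ⟨N₁, h1⟩ := Pool.Agent.Run7.h504.CH.fam_chowla h B C (2 * κ) (2 * U)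
    obtain ⟨N₂, h2⟩ := Pool.Agent.H373R2.T7.ev_L' 3
    refine ⟨N₁ + N₂ + 1, fun N hN s L hs hL x a ha α hα f => ?_⟩
    have hL3 := h2 N (by omega)
    obtain ⟨k, hk⟩ : ∃ k, k = ⌊Real.log N⌋₊ := ⟨_, rfl⟩
    have hk3 : 3 ≤ k := by
      rw [hk]
      exact Nat.le_floor (by exact_mod_cast hL3)
    have hkL : (k : ℝ) ≤ Real.log N := by
      rw [hk]
      exact Nat.floor_le (by linarith)
    have hk3r : (3 : ℝ) ≤ k := by exact_mod_cast hk3
    have hLk : Real.log N ≤ (k : ℝ) ^ 2 := by
      have := (Nat.lt_floor_add_one (Real.log N)).le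
      rw [← hk] at this
      nlinarith
    have hpow : ∀ e : ℕ, Real.log N ^ e ≤ (k : ℝ) ^ (2 * e) := by
      intro e
      rw [pow_mul]
      exact pow_le_pow_left₀ (by linarith) hLk _
    have hN0 : (0 : ℝ) ≤ N := Nat.cast_nonneg _
    have hLp : 0 < Real.log N ^ U := pow_pos (by linarith) _
    have h3 := h1 N (by omega) k hk s L
      (by
        have := hs.trans (hpow κ)
        exact_mod_cast this)
      (by
        have := hL.trans (hpow κ)
        exact_mod_cast this) x a (fun i => (ha i).1) (fun i => by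
        obtain ⟨p, hp1, hp2, he⟩ := (ha i).2
        exact Run7.h223.LE.spread_mono C p h (x i) N hp2 (a i) he) α hα f
    have hX : 0 ≤ ∏ i, (x i : ℝ) := prod_nonneg fun _ _ => Nat.cast_nonneg _
    have h4 : (∏ i, (x i : ℝ)) / (k : ℝ) ^ (2 * U) ≤ (∏ i, (x i : ℝ)) / Real.log N ^ U :=
      div_le_div_of_nonneg_left hX hLp (hpow U)
    refine le_trans ?_ (h3.trans h4)
    refine Pool.Agent.R459.Fams.count_mono fun m _ hm hcon => hm ?_
    intro l I hI q hq1 hq2 r u v huv
    have h5 := hcon l I hI q hq1 (by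
      have := hq2.trans (hpow κ)
      exact_mod_cast this) r u v huv
    refine le_trans (le_of_eq ?_) (h5.trans ?_)
    · rfl
    · exact div_le_div_of_nonneg_left hN0 hLp (hpow U)
  · rcases Nat.eq_zero_or_pos N with hN | hN
    · subst hN
      simp only [Nat.cast_zero, mul_zero]
      rcases Nat.eq_zero_or_pos C with hC | hC
      · subst hC
        positivity
      · rw [Real.log_zero, zero_pow (by omega), zero_mul]
    · have hN0 : (0 : ℝ) < N := by exact_mod_cast hN
      have h1 := energy_le p x a (Real.log N ^ C * (x : ℝ) ^ p / N) (fun n => by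
        rw [le_div_iff₀ hN0]
        exact hr n)
      calc (energy p x a : ℝ) * N ≤ (x : ℝ) ^ p * (Real.log N ^ C * (x : ℝ) ^ p / N) * N :=
            mul_le_mul_of_nonneg_right h1 hN0.le
        _ = Real.log N ^ C * ((x : ℝ) ^ p * (x : ℝ) ^ p) := by field_simp
        _ = Real.log N ^ C * (x : ℝ) ^ (2 * p) := by rw [← pow_add, two_mul]

end Pool.Agent.Results.MP_648c71_nt.FamiliesOfConstants
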