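import Pool.Agent.Run7.h536.LD4

set_option autoImplicit false

/-!
# The Liouville function at polynomial values, for arguments with restricted digits

Fix a base `b`, and let `S` be the set of the `t < b ^ k` whose digits satisfy arbitrary restrictions (the `i`-th digit
belongs to `D i`, at least two digits are allowed at every place). `S` may be as sparse as `2 ^ k = (b ^ k) ^ δ` with `δ`
arbitrarily small. For polynomials `F(t) = ∏ (f_j(t) + c_j)`, where the `f_j` are arbitrary polynomials of
fixed degrees `d_j ≥ 2`, whose coefficients may depend on `k` and are as large as the size `N_j = b ^ (d_j k)` of the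
values allows, the sum of `λ(F(t))` over the `t ∈ S` in every initial segment of every progression with modulus at most
`k ^ T` is at most `|S| / k ^ U`, for all but at most `k ^ (-U) ∏ N_j` of the vectors of constant terms, `|c_j| ≤ B N_j`.

Proof. The values of a polynomial of degree `d ≥ 2` at the integers with restricted digits have nearly minimal additive
energy of some order depending only on `b` and `d`, uniformly in the polynomial (`Run7.h536.PW1` to `PW3`). With
Davenport's bound for `∑ λ(n) e(n α)` (starting files, `H373R2.T7.sup_liou`, `R459.fam_near_fin`) this bounds the second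
moment over one constant term with arbitrary bounded coefficients (`Run7.h536.LD1`); the other factors and the weights
are absorbed in the coefficients (`LD2`), and initial segments and classes are treated by a grid and a union bound.
-/

namespace Pool.Agent.Results.MP_648c71_nt.RestrictedDigits

open Finset Polynomial

/-- The integers `t < b ^ k` whose `i`-th digit in base `b` belongs to `D i`, for all `i < k`. -/
def restricted (b : ℕ) (D : ℕ → Finset ℕ) (k : ℕ) : Finset ℕ :=
  (range (b ^ k)).filter (fun t : ℕ => ∀ i < k, t / b ^ i % b ∈ D i)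

/-- The Liouville function on the integers, `λ(-n) = λ(n)` and `λ(0) = 0`. -/
noncomputable def lam (n : ℤ) : ℝ := if n = 0 then 0 else (-1) ^ ArithmeticFunction.cardFactors n.natAbs

open Classical in
/-- The number of the vectors of integers `c_j`, `|c_j| ≤ B N_j`, for which, for some `q ≤ Q`, some `a` and some `M`, the
sum of `w(t) λ(F(t))`, `F = ∏_j (f_j + c_j)`, over the `t ∈ S` with `t < M`, `t ≡ a` modulo `q`, exceeds `δ` in absolute
value. -/
noncomputable def exceptions {r : ℕ} (B : ℕ) (N : Fin r → ℕ) (S : Finset ℕ) (f : Fin r → ℤ[X]) (w : ℕ → ℝ) (Q : ℕ)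
    (δ : ℝ) : ℕ :=
  ((Fintype.piFinset (fun j => Icc (-((B : ℤ) * (N j : ℤ))) ((B : ℤ) * (N j : ℤ)))).filter (fun c : Fin r → ℤ =>
    ∃ q a M : ℕ, 1 ≤ q ∧ q ≤ Q ∧ δ <
      |∑ t ∈ S.filter (fun t => t < M ∧ t ≡ a [MOD q]), w t * lam ((∏ j, (f j + C (c j))).eval (t : ℤ))|)).card

lemma lam_eq (n : ℤ) : Pool.Agent.Run7.h536.RD.AL (fun n => (-1 : ℝ) ^ ArithmeticFunction.cardFactors n) n = lam n := by
  unfold Pool.Agent.Run7.h536.RD.AL Pool.Agent.Run7.h536.QC.LI lam
  rcases lt_trichotomy n 0 with h | h | h
  · rw [if_neg (by omega), if_pos (by omega), if_neg h.ne, zero_add]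
    congr 2
    omega
  · rw [if_neg (by omega), if_neg (by omega), if_pos h, add_zero]
  · rw [if_pos (by omega), if_neg (by omega), if_neg h.ne', add_zero]
    congr 2
    omega

lemma lam_mul (m n : ℤ) : lam (m * n) = lam m * lam n := by
  unfold lam
  by_cases hm : m = 0
  · simp [hm]
  · by_cases hn : n = 0
    · simp [hn]
    · rw [if_neg hm, if_neg hn, if_neg (mul_ne_zero hm hn), Int.natAbs_mul,
        ArithmeticFunction.cardFactors_mul (Int.natAbs_ne_zero.2 hm) (Int.natAbs_ne_zero.2 hn), pow_add]

lemma lam_prod {r : ℕ} (n : Fin r → ℤ) : lam (∏ j, n j) = ∏ j, lam (n j) := by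
  have h1 : ∀ s : Finset (Fin r), lam (∏ j ∈ s, n j) = ∏ j ∈ s, lam (n j) := by
    classical
    intro s
    induction s using Finset.induction_on with
    | empty => simp [lam]
    | insert a s ha ih => rw [prod_insert ha, prod_insert ha, lam_mul, ih]
  exact h1 univ

/-- Fix the base `b ≥ 2`, the number `r ≥ 1` of factors and their degrees `d_j ≥ 2`, and `B`, `T`, `U`. For all large `k`:
let `D i`, `i < k`, be ARBITRARY sets of at least two digits, `S` the set of the `t < b ^ k` with the `i`-th digit in
`D i`, `f_j` ARBITRARY polynomials with integer coefficients (which may depend on `k`) of degree `d_j` with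
`|f_j(t)| ≤ B N_j` on `S`, `N_j = b ^ (d_j k)`, and `w` ARBITRARY weights with `|w(t)| ≤ k ^ T` (for example `w = 1`, or
the indicator of the primes, or any character). Then for all but at most `k ^ (-U) ∏ N_j` of the vectors of constant
terms `c_j`, `|c_j| ≤ B N_j`: for ALL progressions `a + q ℤ`, `q ≤ k ^ T`, and ALL `M`, the sum of
`w(t) λ((f_1(t) + c_1) ⋯ (f_r(t) + c_r))` over the `t ∈ S` with `t < M`, `t ≡ a` modulo `q`, is at most `|S| / k ^ U` in
absolute value. -/
theorem result (b : ℕ) (hb : 2 ≤ b) (r : ℕ) (hr : 1 ≤ r) (d : Fin r → ℕ) (hd : ∀ j, 2 ≤ d j) (B T U : ℕ) (hB : 1 ≤ B) :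
    ∃ k₀ : ℕ, ∀ k : ℕ, k₀ ≤ k →
    ∀ D : ℕ → Finset ℕ, (∀ i < k, D i ⊆ range b ∧ 2 ≤ (D i).card) →
    ∀ f : Fin r → ℤ[X], (∀ j, (f j).natDegree = d j) →
    (∀ j, ∀ t ∈ restricted b D k, |(f j).eval (t : ℤ)| ≤ B * ((b ^ (d j * k) : ℕ) : ℤ)) →
    ∀ w : ℕ → ℝ, (∀ t, |w t| ≤ (k : ℝ) ^ T) →
    (exceptions B (fun j => b ^ (d j * k)) (restricted b D k) f w (k ^ T) ((restricted b D k).card / (k : ℝ) ^ U) : ℝ) ≤
      (∏ j, ((b ^ (d j * k) : ℕ) : ℝ)) / (k : ℝ) ^ U := by
  obtain ⟨k0, h0⟩ := Pool.Agent.Run7.h536.RD.digits_f_classes _ Pool.Agent.Run7.h536.RD.small_liou b hb r hr d hd B T U hB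
  refine ⟨k0, fun k hk D hD f hf hfb w hw => ?_⟩
  classical
  refine le_trans (le_of_eq ?_) (h0 k hk D hD f hf hfb w hw)
  unfold exceptions
  congr 2
  apply filter_congr
  intro c _
  have e : ∀ t : ℕ, lam ((∏ j, (f j + C (c j))).eval (t : ℤ)) =
      ∏ j, Pool.Agent.Run7.h536.RD.AL (fun n => (-1 : ℝ) ^ ArithmeticFunction.cardFactors n) ((f j).eval (t : ℤ) + c j) := by
    intro t
    rw [eval_prod, lam_prod]
    apply prod_congr rfl
    intro j _
    rw [lam_eq, eval_add, eval_C]
  simp only [e]
  rfl

end Pool.Agent.Results.MP_648c71_nt.RestrictedDigits
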