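import Pool.Agent.Run7.h844.RP.CorrV

/-!
# The Liouville function at products of an arbitrary polynomial and of linear factors whose constant terms are multiples of
integers near the values of generalised polynomials at primes

Nothing is used besides Mathlib in the statement: `Fintype.piFinset` is the set of the vectors `p` with
`X i < p i ≤ 2 X i`, `p i` prime.

Method: exponential sums over primes with the phase of a generalised polynomial: derivative bounds uniform in the
coefficients, van der Corput differencing of all orders, bilinear sums, Vaughan's identity (after `Pool.Agent.H895R3.NK`,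
`Pool.Agent.H373R2.T7`); a discrete Fejér kernel for the passage from real numbers to their integer parts, and a kernel
estimate for the concentration on short intervals which needs only the large frequencies (library
`Pool.Agent.Run7.h844.RP`, after `Pool.Agent.N384.MQ`, `Pool.Agent.N193.PS`). The large spectrum of all the
multiples is thin, and the passage from such exponential sums to correlations for almost all shifts is from the starting
files, in a generic form: `Pool.Agent.N625.PT` (`t_corr`).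
-/

set_option autoImplicit false

namespace Pool.Agent.Results.MP_648c71_nt.ValuesAtPrimes

open Finset

/-- The generalised polynomial `∑ a x * t ^ x`, `x ∈ F`, with real exponents and coefficients. -/
noncomputable def genPoly (F : Finset ℝ) (a : ℝ → ℝ) (t : ℝ) : ℝ := ∑ x ∈ F, a x * t ^ x

/-- `c` is the largest exponent; it is positive and not an integer, and its coefficient is not zero. -/
def Leading (F : Finset ℝ) (a : ℝ → ℝ) (c : ℝ) : Prop :=
  c ∈ F ∧ (∀ x ∈ F, x ≤ c) ∧ 0 < c ∧ (∀ m : ℕ, c ≠ m) ∧ a c ≠ 0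

/-- The Liouville function on the integers, `λ(-m) = λ(m)` and `λ(0) = 0`. -/
def lam (m : ℤ) : ℤ := if m = 0 then 0 else (-1) ^ ArithmeticFunction.cardFactors m.natAbs

/-- The product of the polynomial `g` and of the linear polynomials `α X + h i`, `i ∈ I`. -/
noncomputable def prodPoly {s : ℕ} (g : Polynomial ℤ) (α : ℕ) (h : Fin s → ℤ) (I : Finset (Fin s)) : Polynomial ℤ :=
  g * ∏ i ∈ I, (Polynomial.C (α : ℤ) * Polynomial.X + Polynomial.C (h i))

/-- The sum of `λ(F(t))`, where `F` is the product of `g` and of the `α X + h i`, `i ∈ I`, over the `1 ≤ t ≤ x` with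
`t ≡ r` modulo `m` for which the `α t + h i`, `i ∈ I`, are positive. -/
noncomputable def lamSum {s : ℕ} (m r : ℕ) (g : Polynomial ℤ) (α : ℕ) (h : Fin s → ℤ) (I : Finset (Fin s)) (x : ℕ) : ℤ :=
  ∑ t ∈ (Icc 1 x).filter (fun t : ℕ => t ≡ r [MOD m] ∧ ∀ i ∈ I, 0 < (α : ℤ) * t + h i), lam ((prodPoly g α h I).eval (t : ℤ))

/-- For ALL the vectors `q` of integers with `|q i - y i| ≤ R`, ALL the factors `1 ≤ h i ≤ H`, all `l`, all nonempty sets `I`
of indices and all `x` with `α l * x ≤ Y`: the sum for `g l` and the `α l X + h i q i` in the class `r l` modulo `m l` is at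
most `E` in absolute value. -/
def Near {s L : ℕ} (m r : Fin L → ℕ) (g : Fin L → Polynomial ℤ) (α : Fin L → ℕ) (H Y E R : ℝ) (y : Fin s → ℝ) : Prop :=
  ∀ q : Fin s → ℤ, (∀ i, |(q i : ℝ) - y i| ≤ R) → ∀ h : Fin s → ℕ, (∀ i, 1 ≤ h i ∧ (h i : ℝ) ≤ H) →
    ∀ l, ∀ I : Finset (Fin s), I.Nonempty → ∀ x : ℕ, (α l : ℝ) * x ≤ Y →
      |((lamSum (m l) (r l) (g l) (α l) (fun i => h i * q i) I x : ℤ) : ℝ)| ≤ E

lemma lam_mul (m n : ℤ) : lam (m * n) = lam m * lam n := by
  unfold lam
  by_cases hm : m = 0
  · simp [hm]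
  · by_cases hn : n = 0
    · simp [hn]
    · rw [if_neg (mul_ne_zero hm hn), if_neg hm, if_neg hn, Int.natAbs_mul,
        ArithmeticFunction.cardFactors_mul (Int.natAbs_ne_zero.2 hm) (Int.natAbs_ne_zero.2 hn), pow_add]

lemma lam_one : lam 1 = 1 := by
  unfold lam
  simp

lemma lam_prod {ι : Type} (I : Finset ι) (g : ι → ℤ) : lam (∏ i ∈ I, g i) = ∏ i ∈ I, lam (g i) := by
  classical
  induction I using Finset.induction_on with
  | empty => simp [lam_one]
  | insert a I ha ih => rw [prod_insert ha, prod_insert ha, lam_mul, ih]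

lemma norm_lam_le (m : ℤ) : ‖(lam m : ℂ)‖ ≤ 1 := by
  unfold lam
  split_ifs
  · simp
  · push_cast
    rw [norm_pow]
    simp

lemma lam_exI (m : ℤ) (hm : 0 < m) :
    Pool.Agent.H373R2.T7.exI (fun n => ((Pool.Agent.Y885.laR n : ℝ) : ℂ)) m = (lam m : ℂ) := by
  unfold lam Pool.Agent.H373R2.T7.exI Pool.Agent.Y885.laR
  rw [if_pos (by omega), if_neg (by omega)]
  have : m.toNat = m.natAbs := by omega
  rw [this]
  push_cast
  rfl

lemma exI_neg (m : ℤ) (hm : ¬ 0 < m) :
    Pool.Agent.H373R2.T7.exI (fun n => ((Pool.Agent.Y885.laR n : ℝ) : ℂ)) m = 0 := by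
  unfold Pool.Agent.H373R2.T7.exI
  rw [if_neg (by omega)]

lemma sum_eq {s : ℕ} (m r : ℕ) (g : Polynomial ℤ) (α : ℕ) (h : Fin s → ℤ) (I : Finset (Fin s)) (x : ℕ) :
    ((lamSum m r g α h I x : ℤ) : ℂ) = ∑ n ∈ Icc 1 x, (if n ≡ r [MOD m] then (lam (g.eval (n : ℤ)) : ℂ) else 0) *
      ∏ i ∈ I, Pool.Agent.H373R2.T7.exI (fun n => ((Pool.Agent.Y885.laR n : ℝ) : ℂ)) (((α * n : ℕ) : ℤ) + h i) := by
  unfold lamSum
  rw [sum_filter]
  push_cast
  apply sum_congr rfl
  intro n _
  by_cases h1 : n ≡ r [MOD m]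
  · rw [if_pos h1]
    by_cases h2 : ∀ i ∈ I, 0 < (α : ℤ) * n + h i
    · rw [if_pos ⟨h1, h2⟩]
      have e1 : (prodPoly g α h I).eval (n : ℤ) = g.eval (n : ℤ) * ∏ i ∈ I, ((α : ℤ) * n + h i) := by
        unfold prodPoly
        rw [Polynomial.eval_mul, Polynomial.eval_prod]
        congr 1
        apply prod_congr rfl
        intro i _
        simp
      rw [e1, lam_mul, lam_prod]
      push_cast
      congr 1
      apply prod_congr rfl
      intro i hi
      exact (lam_exI _ (h2 i hi)).symm
    · rw [if_neg (fun hcon => h2 hcon.2)]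
      push Not at h2
      obtain ⟨i, hi, hle⟩ := h2
      rw [prod_eq_zero hi (exI_neg _ (by omega)), mul_zero]
  · rw [if_neg h1, if_neg (fun hcon => h1 hcon.1), zero_mul]

open Classical in
/-- Let `s ≥ 0` and let `f i`, `i < s`, be generalised polynomials whose largest exponents `c i` are positive and not
integers, and let `A`, `J`, `W` and `U` be fixed. Let `M` be large and let the sizes `X i` satisfy
`X i ^ (c i) ≤ M ≤ X i ^ (c i) log ^ A M`. Let `z i` be any real numbers with `|z i| ≤ M`, and let at most `log ^ A M` systems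
of a residue class `r l` modulo `m l`, of an arbitrary polynomial `g l` with integer coefficients (of any degree) and of an
integer `α l ≥ 1` be given. Then all the vectors `p` of primes `X i < p i ≤ 2 X i`, with at most `(∏ X i) / log ^ U M`
exceptions, have the following property: for ALL the integers `q i` at a distance of at most `log ^ W M` from
`f i (p i) + z i`, ALL the factors `1 ≤ h i ≤ log ^ J M`, all `l`, all nonempty sets `I` of indices and all `x` with
`α l * x ≤ M log ^ A M`, `|∑ λ(F(t))| ≤ M / log ^ U M`, where `F` is the product of `g l` and of the linear polynomials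
`α l X + h i q i`, `i ∈ I`, and the sum is over the `1 ≤ t ≤ x` with `t ≡ r l` modulo `m l` at which these linear polynomials
are positive. -/
theorem result (s : ℕ) (F : Fin s → Finset ℝ) (a : Fin s → ℝ → ℝ) (c : Fin s → ℝ) (hF : ∀ i, Leading (F i) (a i) (c i))
    (A J W U : ℕ) :
    ∃ M₀ : ℕ, ∀ M : ℕ, M₀ ≤ M → ∀ X : Fin s → ℕ,
      (∀ i, (X i : ℝ) ^ (c i) ≤ M ∧ (M : ℝ) ≤ (X i : ℝ) ^ (c i) * Real.log M ^ A) →
      ∀ z : Fin s → ℝ, (∀ i, |z i| ≤ M) →
      ∀ L : ℕ, (L : ℝ) ≤ Real.log M ^ A → ∀ (m r : Fin L → ℕ) (g : Fin L → Polynomial ℤ) (α : Fin L → ℕ), (∀ l, 1 ≤ α l) →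
      (((Fintype.piFinset fun i => (Ioc (X i) (2 * X i)).filter Nat.Prime).filter fun p =>
        ¬ Near m r g α (Real.log M ^ J) (M * Real.log M ^ A) (M / Real.log M ^ U) (Real.log M ^ W)
          (fun i => genPoly (F i) (a i) (p i) + z i)).card : ℝ) ≤ (∏ i, (X i : ℝ)) / Real.log M ^ U := by
  obtain ⟨M₀, h0⟩ := Pool.Agent.Run7.h844.RP.corr_primes s (fun _ => Pool.Agent.Y885.laR)
    (fun _ => Pool.Agent.Y885.fine_lam) F c (fun i => (hF i).1) (fun i => (hF i).2.2.2.1) (fun i => (hF i).2.2.1)
    (fun i => (hF i).2.1) a (fun i => (hF i).2.2.2.2) A J W U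
  refine ⟨M₀, fun M hM X hX z hz L hL m r g α hα => ?_⟩
  refine le_trans ?_ (h0 M hM X hX z hz L hL α
    (fun l n => if n ≡ r l [MOD m l] then (lam ((g l).eval (n : ℤ)) : ℂ) else 0) hα (fun l n => ?_))
  · apply Nat.cast_le.2
    apply card_le_card
    intro p hp
    rw [mem_filter] at hp ⊢
    refine ⟨hp.1, fun hcon => hp.2 fun q hq h hh l I hI Y hY => ?_⟩
    refine le_trans (le_of_eq ?_) (hcon q hq h hh l I hI Y hY)
    rw [← Real.norm_eq_abs, ← Complex.norm_real, Complex.ofReal_intCast, sum_eq]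
  · split_ifs
    · exact norm_lam_le _
    · simp

end Pool.Agent.Results.MP_648c71_nt.ValuesAtPrimes
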